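import Mathlib

/-! # An f-noetherian completely regular semigroup which is not finitely generated -/

namespace Pool.Agent.Results.MP_f4ff42_al.NotFinitelyGenerated

/-- A right congruence on a semigroup: an equivalence relation with `(a, b) ∈ ρ → (a s, b s) ∈ ρ`. -/
structure RightCon (S : Type) [Semigroup S] where
  /-- the relation -/
  r : S → S → Prop
  equiv : Equivalence r
  mul_right : ∀ a b s, r a b → r (a * s) (b * s)

/-- The number of classes is finite. -/
def RightCon.FiniteIndex {S : Type} [Semigroup S] (ρ : RightCon S) : Prop :=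
  Finite (Quotient (⟨ρ.r, ρ.equiv⟩ : Setoid S))

/-- `ρ` is the smallest right congruence containing some finite set `X` of pairs. -/
def RightCon.FG {S : Type} [Semigroup S] (ρ : RightCon S) : Prop :=
  ∃ X : Set (S × S), X.Finite ∧ (∀ p ∈ X, ρ.r p.1 p.2) ∧
    ∀ τ : RightCon S, (∀ p ∈ X, τ.r p.1 p.2) → ∀ a b, ρ.r a b → τ.r a b

/-- Every right congruence of finite index is finitely generated. -/
def FNoetherian (S : Type) [Semigroup S] : Prop := ∀ ρ : RightCon S, ρ.FiniteIndex → ρ.FG

/-- Every element lies in a subgroup: there is an idempotent `e` such that `x` is a unit of `e S e`. -/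
def CompletelyRegular (S : Type) [Semigroup S] : Prop :=
  ∀ x : S, ∃ e y : S, e * e = e ∧ e * x = x ∧ x * e = x ∧ e * y = y ∧ y * e = y ∧ x * y = e ∧ y * x = e

open Finsupp

/-- the example: a copy of `ℤ` and `ℤ × ℤ^(ℤ) × ℤ` -/
inductive E : Type
  | F (c : ℤ) : E
  | K (a : ℤ) (g : ℤ →₀ ℤ) (b : ℤ) : E

namespace E

noncomputable def mulE : E → E → E
  | F c, F d => F (c + d)
  | F c, K a g b => K (c + a) g b
  | K a g b, F c => K a g (b + c)
  | K a g b, K a' g' b' => K a (g + single (b + a') 1 + g') b'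

noncomputable instance : Mul E := ⟨mulE⟩

theorem FF (c d : ℤ) : F c * F d = F (c + d) := rfl
theorem FK (c a b : ℤ) (g : ℤ →₀ ℤ) : F c * K a g b = K (c + a) g b := rfl
theorem KF (c a b : ℤ) (g : ℤ →₀ ℤ) : K a g b * F c = K a g (b + c) := rfl
theorem KK (a b a' b' : ℤ) (g g' : ℤ →₀ ℤ) :
    K a g b * K a' g' b' = K a (g + single (b + a') 1 + g') b' := rfl

noncomputable instance : Semigroup E where
  mul_assoc x y z := by
    rcases x with c | ⟨a, g, b⟩ <;> rcases y with c' | ⟨a', g', b'⟩ <;> rcases z with c'' | ⟨a'', g'', b''⟩ <;>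
      simp only [FF, FK, KF, KK, add_assoc]

theorem compReg : CompletelyRegular E := by
  intro x
  rcases x with c | ⟨a, g, b⟩
  · refine ⟨F 0, F (-c), ?_⟩
    simp [FF]
  · refine ⟨K a (-single (b + a) 1) b, K a (-single (b + a) 1 - g - single (b + a) 1) b, ?_⟩
    simp only [KK]
    refine ⟨?_, ?_, ?_, ?_, ?_, ?_, ?_⟩ <;> congr 1 <;> abel

theorem notFG : ¬ ∃ A : Finset E, Subsemigroup.closure (A : Set E) = ⊤ := by
  classical
  rintro ⟨A, hA⟩
  let supp : E → Finset ℤ := fun x => match x with
    | F _ => ∅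
    | K _ g _ => g.support
  obtain ⟨n, hn⟩ := Infinite.exists_notMem_finset (A.biUnion supp)
  let C : Subsemigroup E :=
    { carrier := {x | match x with
        | F _ => True
        | K _ g _ => 0 ≤ g n}
      mul_mem' := by
        intro x y hx hy
        rcases x with c | ⟨a, g, b⟩ <;> rcases y with c' | ⟨a', g', b'⟩
        · trivial
        · exact hy
        · exact hx
        · change 0 ≤ g n at hx
          change 0 ≤ g' n at hy
          change 0 ≤ (g + single (b + a') (1 : ℤ) + g' : ℤ →₀ ℤ) n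
          have h1 : 0 ≤ (single (b + a') (1 : ℤ)) n := by
            rw [single_apply]; split_ifs <;> norm_num
          rw [Finsupp.add_apply, Finsupp.add_apply]
          omega }
  have hAC : Subsemigroup.closure (A : Set E) ≤ C := by
    rw [Subsemigroup.closure_le]
    intro x hx
    rcases x with c | ⟨a, g, b⟩
    · trivial
    · change 0 ≤ g n
      have : n ∉ g.support := by
        intro h
        exact hn (Finset.mem_biUnion.2 ⟨K a g b, hx, h⟩)
      rw [Finsupp.notMem_support_iff.1 this]
  rw [hA] at hAC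
  have h := hAC (Subsemigroup.mem_top (K 0 (-single n 1) 0))
  change 0 ≤ (-single n (1 : ℤ)) n at h
  rw [Finsupp.neg_apply, single_eq_same] at h
  omega

/-! ### Finite index right congruences -/

variable (ρ : RightCon E)

theorem trans_inv {τ : RightCon E} {a b : ℤ} {g g' : ℤ →₀ ℤ} (h : τ.r (K a g b) (K a g' b)) (x : ℤ →₀ ℤ) (b' : ℤ) :
    τ.r (K a (g + x) b') (K a (g' + x) b') := by
  have := τ.mul_right _ _ (K 0 (x - single b 1) b') h
  rw [KK, KK, add_zero] at this
  have e1 : ∀ g : ℤ →₀ ℤ, g + single b 1 + (x - single b 1) = g + x := fun g => by abel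
  rwa [e1, e1] at this

theorem period (ρ : RightCon E) [hf : Finite (Quotient (⟨ρ.r, ρ.equiv⟩ : Setoid E))] (P : ℤ → E)
    (hP : ∀ i j t, ρ.r (P i) (P j) → ρ.r (P (i + t)) (P (j + t))) :
    ρ.r (P 0) (P ((Nat.card (Quotient (⟨ρ.r, ρ.equiv⟩ : Setoid E))).factorial : ℕ)) := by
  classical
  set Q := Quotient (⟨ρ.r, ρ.equiv⟩ : Setoid E) with hQ
  have := Fintype.ofFinite Q
  set n := Nat.card Q with hn
  have hcard : Fintype.card Q < Fintype.card (Fin (n + 1)) := by
    rw [Fintype.card_fin, hn, Nat.card_eq_fintype_card]; omega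
  obtain ⟨i, j, hij, hq⟩ := Fintype.exists_ne_map_eq_of_card_lt
    (fun i : Fin (n + 1) => (Quotient.mk (⟨ρ.r, ρ.equiv⟩ : Setoid E) (P (i : ℕ)) : Q)) hcard
  have main : ∀ i j : ℕ, i < j → j ≤ n → ρ.r (P i) (P j) → ρ.r (P 0) (P (n.factorial : ℕ)) := by
    intro i j hij hj h
    have h0 : ρ.r (P 0) (P ((j - i : ℕ) : ℤ)) := by
      have := hP _ _ (-(i : ℤ)) h
      have e1 : (i : ℤ) + -i = 0 := by ring
      have e2 : (j : ℤ) + -i = ((j - i : ℕ) : ℤ) := by
        rw [Nat.cast_sub hij.le]; ring
      rwa [e1, e2] at this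
    have hk : ∀ k : ℕ, ρ.r (P 0) (P ((k * (j - i) : ℕ) : ℤ)) := by
      intro k
      induction k with
      | zero => simpa using ρ.equiv.refl _
      | succ k ih =>
        have := hP _ _ (((j - i : ℕ) : ℤ)) ih
        have e1 : ((k * (j - i) : ℕ) : ℤ) + ((j - i : ℕ) : ℤ) = (((k + 1) * (j - i) : ℕ) : ℤ) := by
          push_cast; ring
        rw [e1, zero_add] at this
        exact ρ.equiv.trans h0 this
    have hd : (j - i) ∣ n.factorial := Nat.dvd_factorial (by omega) (by omega)
    obtain ⟨k, hk'⟩ := hd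
    rw [hk', mul_comm]
    exact hk k
  have hr : ρ.r (P (i : ℕ)) (P (j : ℕ)) := Quotient.exact hq
  rcases lt_or_gt_of_ne (fun h : (i : ℕ) = j => hij (Fin.ext h)) with h | h
  · exact main i j h (by omega) hr
  · exact main j i h (by omega) (ρ.equiv.symm hr)

/-- the subgroup of `ℤ^(ℤ)` generated by the `e_(c+M) - e_c` and the `M e_c` -/
noncomputable def Hs (M : ℕ) : AddSubgroup (ℤ →₀ ℤ) :=
  AddSubgroup.closure ({x | ∃ c : ℤ, x = single (c + M) 1 - single c 1} ∪ {x | ∃ c : ℤ, x = single c (M : ℤ)})

theorem finite_quot (M : ℕ) (hM : 1 ≤ M) : Finite ((ℤ →₀ ℤ) ⧸ Hs M) := by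
  classical
  have hshift : ∀ c : ℤ, ∀ k : ℤ, (single (c + k * M) (1 : ℤ) - single c 1) ∈ Hs M := by
    intro c k
    induction k using Int.induction_on with
    | zero => simp
    | succ k ih =>
      have h1 : (single (c + k * M + M) (1 : ℤ) - single (c + k * M) 1) ∈ Hs M :=
        AddSubgroup.subset_closure (Or.inl ⟨_, rfl⟩)
      have := (Hs M).add_mem h1 ih
      have e : c + ((k : ℤ) + 1) * M = c + k * M + M := by ring
      rw [e]
      simpa using this
    | pred k ih =>
      have h1 : (single (c + (-(k : ℤ) - 1) * M + M) (1 : ℤ) - single (c + (-(k : ℤ) - 1) * M) 1) ∈ Hs M :=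
        AddSubgroup.subset_closure (Or.inl ⟨_, rfl⟩)
      have := (Hs M).sub_mem ih h1
      have e : c + (-(k : ℤ) - 1) * M + M = c + -(k : ℤ) * M := by ring
      rw [e] at this
      simpa using this
  have hfin : Module.Finite ℤ ((ℤ →₀ ℤ) ⧸ Hs M) := by
    rw [Module.Finite.iff_addGroup_fg]
    rw [AddGroup.fg_def]
    refine ⟨(Finset.range M).image (fun n : ℕ => ((single (n : ℤ) (1 : ℤ) : ℤ →₀ ℤ) : (ℤ →₀ ℤ) ⧸ Hs M)), ?_⟩
    rw [eq_top_iff]
    intro x _
    obtain ⟨g, rfl⟩ := QuotientAddGroup.mk_surjective x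
    induction g using Finsupp.induction_linear with
    | zero => exact AddSubgroup.zero_mem _
    | add f g hf hg =>
      rw [QuotientAddGroup.mk_add]
      exact AddSubgroup.add_mem _ (hf trivial) (hg trivial)
    | single c z =>
      have e0 : (single c z : ℤ →₀ ℤ) = z • single c (1 : ℤ) := by simp
      rw [e0, QuotientAddGroup.mk_zsmul]
      refine AddSubgroup.zsmul_mem _ ?_ _
      have hM' : (0 : ℤ) < M := by exact_mod_cast hM
      have e1 : ((single c (1 : ℤ) : ℤ →₀ ℤ) : (ℤ →₀ ℤ) ⧸ Hs M) =
          ((single (((c % M).toNat : ℕ) : ℤ) (1 : ℤ) : ℤ →₀ ℤ) : (ℤ →₀ ℤ) ⧸ Hs M) := by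
        rw [Int.toNat_of_nonneg (Int.emod_nonneg _ hM'.ne')]
        refine (QuotientAddGroup.eq.2 ?_).symm
        have := hshift (c % M) (c / M)
        have e2 : c % M + c / M * M = c := by rw [mul_comm]; exact Int.emod_add_mul_ediv c M
        rw [e2] at this
        rw [neg_add_eq_sub]
        exact this
      rw [e1]
      refine AddSubgroup.subset_closure ?_
      rw [Finset.coe_image]
      refine ⟨(c % M).toNat, ?_, rfl⟩
      rw [Finset.coe_range, Set.mem_Iio]
      have := Int.emod_lt_of_pos c hM'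
      have h2 := Int.emod_nonneg c hM'.ne'
      omega
  refine Module.finite_of_fg_torsion _ ?_
  intro x
  refine ⟨⟨M, ?_⟩, ?_⟩
  · exact mem_nonZeroDivisors_of_ne_zero (by exact_mod_cast (by omega : M ≠ 0))
  · obtain ⟨g, rfl⟩ := QuotientAddGroup.mk_surjective x
    change (M : ℤ) • (g : (ℤ →₀ ℤ) ⧸ Hs M) = 0
    rw [← QuotientAddGroup.mk_zsmul, QuotientAddGroup.eq_zero_iff]
    induction g using Finsupp.induction_linear with
    | zero => simp
    | add f g hf hg => rw [smul_add]; exact (Hs M).add_mem hf hg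
    | single c z =>
      have e0 : (M : ℤ) • (single c z : ℤ →₀ ℤ) = z • single c (M : ℤ) := by
        rw [Finsupp.smul_single, Finsupp.smul_single]; congr 1
        simp [mul_comm]
      rw [e0]
      exact (Hs M).zsmul_mem (AddSubgroup.subset_closure (Or.inr ⟨_, rfl⟩)) _

theorem fNoeth : FNoetherian E := by
  classical
  intro ρ hf
  have hf' : Finite (Quotient (⟨ρ.r, ρ.equiv⟩ : Setoid E)) := hf
  set M : ℕ := (Nat.card (Quotient (⟨ρ.r, ρ.equiv⟩ : Setoid E))).factorial with hMdef
  have hM : 1 ≤ M := Nat.factorial_pos _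
  have hM' : (0 : ℤ) < M := by exact_mod_cast hM
  have hfq := finite_quot M hM
  -- relations in `ρ`
  have r1 : ρ.r (F 0) (F M) := by
    have := period ρ (fun c => F c) (fun i j t h => ρ.mul_right _ _ (F t) h)
    exact this
  have r2 : ∀ (a b : ℤ) (g : ℤ →₀ ℤ), ρ.r (K a g b) (K a g (b + M)) := by
    intro a b g
    have := period ρ (fun c => K a g (b + c)) (fun i j t h => by
      have := ρ.mul_right _ _ (F t) h
      simp only [KF, add_assoc] at this
      exact this)
    simpa using this
  have r3 : ∀ (a b c : ℤ), ρ.r (K a 0 b) (K a (single c (M : ℤ)) b) := by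
    intro a b c
    have := period ρ (fun z => K a (single c z) b) (fun i j t h => by
      have := trans_inv h (single c t) b
      rw [← single_add, ← single_add] at this
      exact this)
    simpa using this
  -- the finite set of pairs
  let Q : Set (ℤ →₀ ℤ) := Set.range (fun x : (ℤ →₀ ℤ) ⧸ Hs M => x.out)
  have hQ : Q.Finite := Set.finite_range _
  let I : Set ℤ := Set.Ico 0 (M : ℤ)
  have hI : I.Finite := Set.finite_Ico _ _
  let N : Set E := (F '' I) ∪ ((fun p : ℤ × (ℤ →₀ ℤ) × ℤ => K p.1 p.2.1 p.2.2) '' (I ×ˢ Q ×ˢ I))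
  have hN : N.Finite := (hI.image _).union ((hI.prod (hQ.prod hI)).image _)
  let X : Set (E × E) := {(F 0, F M)} ∪
    ((fun i : ℤ => (K i 0 0, K i 0 (M : ℤ))) '' I) ∪
    ((fun p : ℤ × ℤ => (K p.1 0 0, K p.1 (single p.2 (M : ℤ)) 0)) '' (I ×ˢ I)) ∪
    ((fun p : ℤ × (ℤ →₀ ℤ) => (K p.1 p.2 0, K p.1 p.2 (M : ℤ))) '' (I ×ˢ Q)) ∪
    {p | p.1 ∈ N ∧ p.2 ∈ N ∧ ρ.r p.1 p.2}
  have hX : X.Finite := by
    refine ((((Set.finite_singleton _).union (hI.image _)).union ((hI.prod hI).image _)).union
      ((hI.prod hQ).image _)).union ?_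
    exact (hN.prod hN).subset (fun p hp => ⟨hp.1, hp.2.1⟩)
  refine ⟨X, hX, ?_, ?_⟩
  · rintro p ((((hp | ⟨i, hi, rfl⟩) | ⟨q, hq, rfl⟩) | ⟨q, hq, rfl⟩) | hp)
    · rw [Set.mem_singleton_iff.1 hp]; exact r1
    · have := r2 i 0 0
      rwa [zero_add] at this
    · exact r3 _ _ _
    · have := r2 q.1 0 q.2
      rwa [zero_add] at this
    · exact hp.2.2
  · intro τ hτ
    have t1 : τ.r (F 0) (F M) := hτ (F 0, F M) (Or.inl (Or.inl (Or.inl (Or.inl rfl))))
    have t2 : ∀ i ∈ I, τ.r (K i 0 0) (K i 0 (M : ℤ)) := fun i hi =>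
      hτ (K i 0 0, K i 0 (M : ℤ)) (Or.inl (Or.inl (Or.inl (Or.inr ⟨i, hi, rfl⟩))))
    have t3 : ∀ i ∈ I, ∀ n ∈ I, τ.r (K i 0 0) (K i (single n (M : ℤ)) 0) := fun i hi n hn =>
      hτ (K i 0 0, K i (single n (M : ℤ)) 0) (Or.inl (Or.inl (Or.inr ⟨(i, n), ⟨hi, hn⟩, rfl⟩)))
    have t4 : ∀ i ∈ I, ∀ q ∈ Q, τ.r (K i q 0) (K i q (M : ℤ)) := fun i hi q hq =>
      hτ (K i q 0, K i q (M : ℤ)) (Or.inl (Or.inr ⟨(i, q), ⟨hi, hq⟩, rfl⟩))
    have t5 : ∀ x ∈ N, ∀ y ∈ N, ρ.r x y → τ.r x y := fun x hx y hy h =>
      hτ (x, y) (Or.inr ⟨hx, hy, h⟩)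
    -- periodicity of a relation under translation by `M`
    have per : ∀ (σ : RightCon E) (P : ℤ → E), (∀ c, σ.r (P c) (P (c + M))) → ∀ c, σ.r (P (c % M)) (P c) := by
      intro σ P h c
      have hk : ∀ c k : ℤ, σ.r (P c) (P (c + k * M)) := by
        intro c k
        induction k using Int.induction_on with
        | zero => simpa using σ.equiv.refl _
        | succ k ih =>
          have := h (c + k * M)
          have e : c + k * M + M = c + ((k : ℤ) + 1) * M := by ring
          rw [e] at this
          exact σ.equiv.trans ih this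
        | pred k ih =>
          have := h (c + (-(k : ℤ) - 1) * M)
          have e : c + (-(k : ℤ) - 1) * M + M = c + -(k : ℤ) * M := by ring
          rw [e] at this
          exact σ.equiv.trans ih (σ.equiv.symm this)
      have := hk (c % M) (c / M)
      have e2 : c % M + c / M * M = c := by rw [mul_comm]; exact Int.emod_add_mul_ediv c M
      rwa [e2] at this
    -- both relations have the normal forms in `N`
    have nf : ∀ σ : RightCon E, σ.r (F 0) (F M) → (∀ i ∈ I, σ.r (K i 0 0) (K i 0 (M : ℤ))) →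
        (∀ i ∈ I, ∀ n ∈ I, σ.r (K i 0 0) (K i (single n (M : ℤ)) 0)) →
        (∀ i ∈ I, ∀ q ∈ Q, σ.r (K i q 0) (K i q (M : ℤ))) →
        ∀ (c : ℤ), (σ.r (F (c % M)) (F c)) ∧ ∀ (a b : ℤ) (g : ℤ →₀ ℤ),
          σ.r (K (a % M) (g : (ℤ →₀ ℤ) ⧸ Hs M).out (b % M)) (K a g b) := by
      intro σ s1 s2 s3 s4 c
      refine ⟨?_, ?_⟩
      · refine per σ F (fun c => ?_) c
        have := σ.mul_right _ _ (F c) s1
        rw [FF, FF, zero_add, add_comm] at this
        exact this
      · intro a b g
        have hIa : a % M ∈ I := ⟨Int.emod_nonneg _ hM'.ne', Int.emod_lt_of_pos _ hM'⟩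
        -- the first coordinate
        have u1 : σ.r (K (a % M) g b) (K a g b) := by
          refine per σ (fun a => K a g b) (fun c => ?_) a
          have := σ.mul_right _ _ (K c g b) s1
          rw [FK, FK, zero_add, add_comm] at this
          exact this
        -- the second coordinate
        have hsub : ∀ x ∈ Hs M, ∀ (g : ℤ →₀ ℤ) (b : ℤ), σ.r (K (a % M) (g + x) b) (K (a % M) g b) := by
          intro x hx
          induction hx using AddSubgroup.closure_induction with
          | mem x hx =>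
            intro g b
            have base : ∀ c : ℤ, ∀ (g : ℤ →₀ ℤ) (b : ℤ),
                σ.r (K (a % M) (g + single c 1) b) (K (a % M) (g + single (c + M) 1) b) := by
              intro c g b
              have := σ.mul_right _ _ (K c g b) (s2 _ hIa)
              rw [KK, KK, zero_add, zero_add, zero_add, add_comm (M : ℤ) c, add_comm _ g, add_comm _ g] at this
              exact this
            rcases hx with ⟨c, rfl⟩ | ⟨c, rfl⟩
            · have := base c (g - single c 1) b
              have e1 : g - single c 1 + single c 1 = g := by abel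
              have e2 : g - single c 1 + single (c + M) 1 = g + (single (c + M) 1 - single c 1) := by abel
              rw [e1, e2] at this
              exact σ.equiv.symm this
            · -- `M e_c`
              have hc : c % M ∈ I := ⟨Int.emod_nonneg _ hM'.ne', Int.emod_lt_of_pos _ hM'⟩
              have v1 := trans_inv (s3 _ hIa _ hc) g b
              rw [zero_add] at v1
              have w1 : ∀ g' : ℤ →₀ ℤ, σ.r (K (a % M) (g' + single (c % M) 1) b)
                  (K (a % M) (g' + single c 1) b) := fun g' =>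
                per σ (fun c => K (a % M) (g' + single c 1) b) (fun c => base c _ b) c
              -- move from `c % M` to `c`
              have v2 : ∀ (z : ℕ) (g : ℤ →₀ ℤ), σ.r (K (a % M) (g + single (c % M) (z : ℤ)) b)
                  (K (a % M) (g + single c (z : ℤ)) b) := by
                intro z
                induction z with
                | zero => intro g; simpa using σ.equiv.refl _
                | succ z ih =>
                  intro g
                  have a1 := w1 (g + single (c % M) (z : ℤ))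
                  have a2 := ih (g + single c 1)
                  have e1 : g + single (c % M) (z : ℤ) + single (c % M) 1 =
                      g + single (c % M) ((z + 1 : ℕ) : ℤ) := by
                    rw [add_assoc, ← single_add]; push_cast; rfl
                  have e2 : g + single (c % M) (z : ℤ) + single c 1 =
                      g + single c 1 + single (c % M) (z : ℤ) := by abel
                  have e3 : g + single c 1 + single c (z : ℤ) = g + single c ((z + 1 : ℕ) : ℤ) := by
                    rw [add_assoc, ← single_add, add_comm (1 : ℤ)]; push_cast; rfl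
                  rw [e1, e2] at a1
                  rw [e3] at a2
                  exact σ.equiv.trans a1 a2
              have v3 := v2 M g
              rw [add_comm _ g] at v1
              exact σ.equiv.symm (σ.equiv.trans v1 v3)
          | zero => intro g b; simpa using σ.equiv.refl _
          | add x y _ _ hx hy =>
            intro g b
            rw [← add_assoc]
            exact σ.equiv.trans (hy _ _) (hx _ _)
          | neg x _ hx =>
            intro g b
            have := hx (g + -x) b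
            rw [neg_add_cancel_right] at this
            exact σ.equiv.symm this
        have hx : (g : (ℤ →₀ ℤ) ⧸ Hs M).out - g ∈ Hs M := by
          have h1 : (((g : (ℤ →₀ ℤ) ⧸ Hs M).out : ℤ →₀ ℤ) : (ℤ →₀ ℤ) ⧸ Hs M) = (g : (ℤ →₀ ℤ) ⧸ Hs M) :=
            Quotient.out_eq' _
          have h2 := QuotientAddGroup.eq.1 h1.symm
          rw [neg_add_eq_sub] at h2
          exact h2
        have u2 := hsub _ hx g b
        rw [add_sub_cancel] at u2
        -- the third coordinate
        have u3 : σ.r (K (a % M) (g : (ℤ →₀ ℤ) ⧸ Hs M).out (b % M))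
            (K (a % M) (g : (ℤ →₀ ℤ) ⧸ Hs M).out b) := by
          refine per σ (fun b => K (a % M) (g : (ℤ →₀ ℤ) ⧸ Hs M).out b) (fun c => ?_) b
          have := σ.mul_right _ _ (F c) (s4 _ hIa _ ⟨(g : (ℤ →₀ ℤ) ⧸ Hs M), rfl⟩)
          rw [KF, KF, zero_add, add_comm] at this
          exact this
        exact σ.equiv.trans u3 (σ.equiv.trans u2 u1)
    have nfρ := nf ρ r1 (fun i _ => by have := r2 i 0 0; rwa [zero_add] at this)
      (fun i _ n _ => r3 _ _ _) (fun i _ q _ => by have := r2 i 0 q; rwa [zero_add] at this)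
    have nfτ := nf τ t1 t2 t3 t4
    let nfm : E → E := fun x => match x with
      | F c => F (c % M)
      | K a g b => K (a % M) (g : (ℤ →₀ ℤ) ⧸ Hs M).out (b % M)
    have hI' : ∀ a : ℤ, a % M ∈ I := fun a => ⟨Int.emod_nonneg _ hM'.ne', Int.emod_lt_of_pos _ hM'⟩
    have hN' : ∀ x, nfm x ∈ N := by
      intro x
      rcases x with c | ⟨a, g, b⟩
      · exact Or.inl ⟨c % M, hI' c, rfl⟩
      · exact Or.inr ⟨(a % M, (g : (ℤ →₀ ℤ) ⧸ Hs M).out, b % M), ⟨hI' a, ⟨_, rfl⟩, hI' b⟩, rfl⟩
    have hρ : ∀ x, ρ.r (nfm x) x := by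
      intro x
      rcases x with c | ⟨a, g, b⟩
      · exact (nfρ c).1
      · exact (nfρ 0).2 a b g
    have hτ' : ∀ x, τ.r (nfm x) x := by
      intro x
      rcases x with c | ⟨a, g, b⟩
      · exact (nfτ c).1
      · exact (nfτ 0).2 a b g
    intro x y hxy
    have h1 : ρ.r (nfm x) (nfm y) := ρ.equiv.trans (hρ x) (ρ.equiv.trans hxy (ρ.equiv.symm (hρ y)))
    exact τ.equiv.trans (τ.equiv.symm (hτ' x)) (τ.equiv.trans (t5 _ (hN' x) _ (hN' y) h1) (hτ' y))

end E

/-- There is an f-noetherian completely regular semigroup which is not finitely generated. -/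
theorem result : ∃ (S : Type) (_ : Semigroup S), CompletelyRegular S ∧ FNoetherian S ∧
    ¬ ∃ A : Finset S, Subsemigroup.closure (A : Set S) = ⊤ :=
  ⟨E, inferInstance, E.compReg, E.fNoeth, E.notFG⟩

end Pool.Agent.Results.MP_f4ff42_al.NotFinitelyGenerated
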